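import Pool.Agent.Run7.h353.Top

set_option autoImplicit false

/-!
# Infinitely many countable models: an infinite definable set of algebraic elements without order

A theory in a countable language that has a model with an infinite definable set of algebraic
elements (for example an algebraic model), such that no formula orders an infinite sequence of
elements of this set and of tuples of elements of this set (for example a stable theory), has
infinitely many countable models. There is no hypothesis on the multiplicity, that is, on the degrees
of the algebraic elements.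

Proof. Work in an ultrapower. If there are uncountably many types of finite tuples, one builds a
chain of pairwise non-isomorphic countable models. Otherwise the definable set may be taken minimal,
and `c` is said to be in the closure of `S` if it satisfies, over `S` and the algebraic elements, a
formula with finitely many algebraic solutions. If no order is definable on the algebraic elements,
then this closure is transitive and has the exchange property, and the models that are atomic over
`n` independent elements are pairwise not isomorphic.
-/

open FirstOrder FirstOrder.Language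

theorem Pool.Agent.Results.MP_84b2ae_lc.AlgebraicWithoutOrder.result
    (L : FirstOrder.Language.{0, 0}) (T : L.Theory) (hL : L.card ≤ Cardinal.aleph0)
    (M : T.ModelType.{0, 0, 0}) (D : L.Formula (Fin 1))
    (hinf : {a : M | D.Realize ![a]}.Infinite)
    (halg : ∀ a : M, D.Realize ![a] →
      ∃ φ : L.Formula (Fin 1), φ.Realize ![a] ∧ {b : M | φ.Realize ![b]}.Finite)
    (hord : ¬ ∃ (k : ℕ) (φ : L.Formula (Fin (k + 1))) (a : ℕ → M) (b : ℕ → Fin k → M),
      (∀ i, D.Realize ![a i]) ∧ (∀ j l, D.Realize ![b j l]) ∧
      ∀ i j, φ.Realize (Fin.cons (a i) (b j) : Fin (k + 1) → M) ↔ i < j) :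
    ∀ n : ℕ, ∃ N : Fin n → T.ModelType.{0, 0, 0},
      (∀ i, Countable (N i) ∧ Infinite (N i)) ∧ ∀ i j, i ≠ j → IsEmpty ((N i) ≃[L] (N j)) := by
  classical
  intro n
  have hc0 : Countable L.Symbols := Cardinal.mk_le_aleph0_iff.1 hL
  have hM : Infinite M := by
    have := hinf.to_subtype
    exact Infinite.of_injective (fun x : {a : M | D.Realize ![a]} => (x : M)) Subtype.val_injective
  obtain ⟨h1, h2, h3⟩ := Run7.h353.setup (M := M) D hinf halg
  have hS : Run7.h353.Sat L (Run7.h353.Up M) := Run7.h353.sat_up
  have hT : Run7.h353.Up M ⊨ T := Run7.h353.up_model T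
  have key : ∃ N : ℕ → Set (Run7.h353.Up M), (∀ k, Run7.h353.Mdl L (N k)) ∧
      ∀ i j, i ≠ j → ¬ Run7.h353.IsoS L (N i) (N j) := by
    by_cases hsm : Run7.h353.Small L (Run7.h353.Up M)
    · obtain ⟨D', hD', hC⟩ := Run7.h353.exists_cx hS hsm Run7.h353.tv_diag h1 h2 h3
      refine Run7.h353.many_of_small hS hsm hC ?_
      rintro ⟨P, a, m, ⟨φ, hφ⟩, ha, hm, hP⟩
      obtain ⟨k, hk⟩ := Run7.h353.Dfn.supp (L := L) (P := P) ⟨φ, hφ⟩
      apply hord
      choose a' ha' using fun i => (ha i).2
      choose m' hm' using fun i j => (hm i j).2
      simp only at ha' hm'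
      let h : ℕ → Fin (k + 1) := fun i => if h : i < k + 1 then ⟨i, h⟩ else 0
      refine ⟨k, φ.relabel h, a', fun j l => m' j l, fun i => ?_, fun j l => ?_, fun i j => ?_⟩
      · rw [← Run7.h353.realize_up_one, ha' i]
        exact hD' (ha i).1
      · simp only
        rw [← Run7.h353.realize_up_one, hm' j l]
        exact hD' (hm j l).1
      · rw [← Run7.h353.realize_up_iff, Formula.realize_relabel, hφ, ← hP]
        refine hk _ _ fun q hq => ?_
        have hq' : q < k + 1 := by omega
        simp only [Function.comp_apply, h, dif_pos hq']
        cases q with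
        | zero => exact ha' i
        | succ q => exact hm' j q
    · exact Run7.h353.many_of_not_small hL hsm
  obtain ⟨N, hN1, hN2⟩ := key
  have hNinf : ∀ k, (N k).Infinite := fun k => h2.mono fun x hx =>
    (h3 x hx).mem (hN1 k).tv (hN1 k).ne
  exact Run7.h353.bridge' (fun i : Fin n => N i) (fun i => hN1 i) (fun i => hNinf i)
    (fun i j hij => hN2 i j fun h => hij (Fin.ext h))
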