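import Pool.Agent.Run7.h353.Four

set_option autoImplicit false

/-!
# At least four countable models: an infinite definable set of algebraic elements

A theory in a countable language that has a model with an infinite definable set of algebraic
elements (for example an algebraic model) has at least four countable models, without any hypothesis
on the degrees of the algebraic elements or on the theory. (Pillay 1980 proves this if the degrees
are bounded, and asks for the proof without the bound.)

Proof. Work in an ultrapower. If there are uncountably many types of finite tuples, there are
infinitely many countable models. Otherwise the definable set may be taken minimal, so that all its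
non-algebraic elements have the same type `p`. The four models are: the one that omits `p`; the
atomic model over one realisation `a` of `p`; the atomic model over a pair of realisations of `p` of
a type that is omitted in the second model; the countable saturated model. If the model atomic over
`a` realised all types of pairs, then the relation of semi-isolation on `p` would be directed, and by
a diagonal argument one formula `R(x, a)` would meet all infinite sets which are definable over
algebraic parameters. The sets given by a twofold composition of such a formula define a preorder
with finite lower cones on the algebraic elements; a realisation `b` of `p` with `tp(a / b)` finitely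
satisfiable would be minimal in a set definable over an algebraic parameter, and strictly above an
algebraic element of this set.
-/

open FirstOrder FirstOrder.Language

theorem Pool.Agent.Results.MP_84b2ae_lc.AtLeastFour.result
    (L : FirstOrder.Language.{0, 0}) (T : L.Theory) (hL : L.card ≤ Cardinal.aleph0)
    (M : T.ModelType.{0, 0, 0}) (D : L.Formula (Fin 1))
    (hinf : {a : M | D.Realize ![a]}.Infinite)
    (halg : ∀ a : M, D.Realize ![a] →
      ∃ φ : L.Formula (Fin 1), φ.Realize ![a] ∧ {b : M | φ.Realize ![b]}.Finite) :
    ∃ N : Fin 4 → T.ModelType.{0, 0, 0},
      (∀ i, Countable (N i) ∧ Infinite (N i)) ∧ ∀ i j, i ≠ j → IsEmpty ((N i) ≃[L] (N j)) := by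
  classical
  have hc0 : Countable L.Symbols := Cardinal.mk_le_aleph0_iff.1 hL
  have hM : Infinite M := by
    have := hinf.to_subtype
    exact Infinite.of_injective (fun x : {a : M | D.Realize ![a]} => (x : M)) Subtype.val_injective
  obtain ⟨h1, h2, h3⟩ := Run7.h353.setup (M := M) D hinf halg
  have hS : Run7.h353.Sat L (Run7.h353.Up M) := Run7.h353.sat_up
  have hT : Run7.h353.Up M ⊨ T := Run7.h353.up_model T
  have key : ∃ N : Fin 4 → Set (Run7.h353.Up M), (∀ k, Run7.h353.Mdl L (N k)) ∧
      ∀ i j, i ≠ j → ¬ Run7.h353.IsoS L (N i) (N j) := by
    by_cases hsm : Run7.h353.Small L (Run7.h353.Up M)
    · obtain ⟨D', -, hC⟩ := Run7.h353.exists_cx hS hsm Run7.h353.tv_diag h1 h2 h3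
      exact Run7.h353.four_of_small hS hsm hC
    · obtain ⟨N, hN1, hN2⟩ := Run7.h353.many_of_not_small hL hsm
      exact ⟨fun i => N i, fun i => hN1 i, fun i j hij => hN2 i j fun h => hij (Fin.ext h)⟩
  obtain ⟨N, hN1, hN2⟩ := key
  have hNinf : ∀ k, (N k).Infinite := fun k => h2.mono fun x hx =>
    (h3 x hx).mem (hN1 k).tv (hN1 k).ne
  exact Run7.h353.bridge' N hN1 hNinf hN2
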